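import Pool.Agent.Y228.HX.Stm

/-!
# A rational subspace is the span of a simplicial cone
-/

set_option autoImplicit false

namespace Pool.Agent.Y100.HX

open Pool.Agent.Y228.HX

theorem t_SUB : S_SUB := by
  classical
  intro W _ _ _ E
  -- the subspace
  let V : Submodule ℚ W :=
    { carrier := {x | ∀ l ∈ E, l x = 0}
      add_mem' := by
        intro x y hx hy l hl
        rw [map_add, hx l hl, hy l hl, add_zero]
      zero_mem' := by
        intro l _
        exact map_zero l
      smul_mem' := by
        intro c x hx l hl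
        rw [map_smul, hx l hl, smul_zero] }
  have hV : ∀ x, x ∈ V ↔ ∀ l ∈ E, l x = 0 := fun x => Iff.rfl
  have b : Module.Basis (Fin (Module.finrank ℚ V)) ℚ V := Module.finBasis ℚ V
  have hex : ∀ i, ∃ f : W →ₗ[ℚ] ℚ, f ∘ₗ V.subtype = b.coord i := fun i =>
    LinearMap.exists_extend (b.coord i)
  choose φ hφ using hex
  have hφ' : ∀ i (x : V), φ i (x : W) = b.coord i x := fun i x => by
    rw [← hφ i]
    rfl
  refine ⟨Module.finrank ℚ V, ⟨fun i => (b i : W), φ, fun i j => ?_⟩, fun x => ?_⟩
  · rw [hφ', Module.Basis.coord_apply, Module.Basis.repr_self, Finsupp.single_apply]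
    simp only [eq_comm]
  · rw [← hV]
    constructor
    · intro h
      rw [← h]
      unfold Smp.pr
      exact Submodule.sum_mem _ fun i _ => Submodule.smul_mem _ _ (b i).2
    · intro h
      unfold Smp.pr
      have h1 : ∑ i, b.repr ⟨x, h⟩ i • b i = ⟨x, h⟩ := b.sum_repr ⟨x, h⟩
      have h2 := congrArg (fun v : V => (v : W)) h1
      simp only [Submodule.coe_sum, Submodule.coe_smul] at h2
      refine Eq.trans ?_ h2
      apply Finset.sum_congr rfl
      intro i _
      rw [hφ' i ⟨x, h⟩]
      rfl

end Pool.Agent.Y100.HX
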